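import Mathlib

set_option autoImplicit false

open Complex Metric Set Filter Topology

namespace Pool.Agent.V1171

/-- If `G` is holomorphic on the unit disc with `|Re G| < L` and `G z = o(z)` at `0`,
then `‖exp (iπ G/(2L)) - 1‖ ≤ |z|² ‖exp(...) + 1‖`. -/
theorem strip_schwarz {G : ℂ → ℂ} {L : ℝ} (hL : 0 < L)
    (hG : DifferentiableOn ℂ G (ball 0 1)) (h0 : G 0 = 0)
    (hre : ∀ z ∈ ball (0 : ℂ) 1, |(G z).re| < L)
    (ho : (fun z => G z) =o[𝓝 0] (fun z : ℂ => z))
    {z : ℂ} (hz : z ∈ ball (0 : ℂ) 1) :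
    ‖(exp (I * (Real.pi / (2 * L) : ℝ) * G z) - 1) / (exp (I * (Real.pi / (2 * L) : ℝ) * G z) + 1)‖
      ≤ ‖z‖ ^ 2 := by
  set k : ℝ := Real.pi / (2 * L) with hk
  have hkpos : 0 < k := by positivity
  set E : ℂ → ℂ := fun z => exp (I * (k : ℝ) * G z) with hE
  have hEre : ∀ w ∈ ball (0 : ℂ) 1, 0 < (E w).re := by
    intro w hw
    have h1 := hre w hw
    simp only [hE]
    rw [exp_re]
    apply mul_pos (Real.exp_pos _)
    apply Real.cos_pos_of_mem_Ioo
    have him : (I * (k : ℝ) * G w).im = k * (G w).re := by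
      simp [mul_assoc]
    rw [him]
    rw [abs_lt] at h1
    have hkL : k * L = Real.pi / 2 := by
      rw [hk]; field_simp
    constructor
    · have : k * (-L) < k * (G w).re := mul_lt_mul_of_pos_left h1.1 hkpos
      linarith
    · have : k * (G w).re < k * L := mul_lt_mul_of_pos_left h1.2 hkpos
      linarith
  have hEne : ∀ w ∈ ball (0 : ℂ) 1, E w + 1 ≠ 0 := by
    intro w hw h
    have h2 := hEre w hw
    have h3 : (E w + 1).re = 0 := by rw [h]; simp
    simp at h3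
    linarith
  set ψ : ℂ → ℂ := fun w => (E w - 1) / (E w + 1) with hψ
  have hEd : DifferentiableOn ℂ E (ball 0 1) := by
    simp only [hE]
    exact (hG.const_mul _).cexp
  have hψd : DifferentiableOn ℂ ψ (ball 0 1) :=
    (hEd.sub_const 1).div (hEd.add_const 1) hEne
  have hψ0 : ψ 0 = 0 := by simp [hψ, hE, h0]
  have hψmaps : MapsTo ψ (ball 0 1) (closedBall (ψ 0) 1) := by
    intro w hw
    rw [hψ0, mem_closedBall_zero_iff]
    simp only [hψ]
    rw [norm_div, div_le_one (norm_pos_iff.mpr (hEne w hw))]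
    have h2 := hEre w hw
    rw [← sq_le_sq₀ (norm_nonneg _) (norm_nonneg _), ← normSq_eq_norm_sq, ← normSq_eq_norm_sq,
      normSq_apply, normSq_apply]
    simp
    nlinarith
  have hψo : (fun w => ψ w - ψ 0) =o[𝓝 0] (fun w : ℂ => ‖w - 0‖ ^ 1) := by
    have hEO : (fun w => E w - 1) =o[𝓝 0] (fun w : ℂ => w) := by
      have hd : HasDerivAt (fun w : ℂ => exp (I * (k : ℝ) * w)) (I * k) 0 := by
        have := ((hasDerivAt_id (0 : ℂ)).const_mul (I * (k : ℝ))).cexp
        simpa using this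
      have hO : (fun w : ℂ => exp (I * (k : ℝ) * w) - 1) =O[𝓝 0] (fun w : ℂ => w) := by
        have := hd.hasFDerivAt.isBigO_sub
        simpa using this
      have hGt : Tendsto G (𝓝 0) (𝓝 0) := by
        have := (hG.differentiableAt (isOpen_ball.mem_nhds (mem_ball_self one_pos))).continuousAt
        simpa [ContinuousAt, h0] using this
      have := (hO.comp_tendsto hGt).trans_isLittleO ho
      simpa [Function.comp_def, hE] using this
    have hden : (fun w => (E w + 1)⁻¹) =O[𝓝 0] (fun _ : ℂ => (1 : ℂ)) := by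
      have hc : ContinuousAt (fun w => (E w + 1)⁻¹) 0 := by
        have h1 := (hEd.differentiableAt (isOpen_ball.mem_nhds (mem_ball_self one_pos))).continuousAt
        exact (h1.add continuousAt_const).inv₀ (hEne 0 (mem_ball_self one_pos))
      exact hc.isBigO_one ℂ
    have := hEO.mul_isBigO hden
    simp only [hψ0, sub_zero, pow_one]
    have h4 : (fun w => ψ w) = fun w => (E w - 1) * (E w + 1)⁻¹ := by
      ext w; simp [hψ, div_eq_mul_inv]
    rw [h4]
    refine this.trans_isBigO ?_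
    simp only [mul_one]
    apply Asymptotics.IsBigO.of_bound 1
    filter_upwards with x
    simp
  have := dist_le_mul_div_pow_of_mapsTo_ball_of_isLittleO hψd hψmaps hψo hz
  rw [hψ0] at this
  simpa [hψ] using this

/-- If `F` is holomorphic on the unit disc, `F 0 = 0`, `F' 0 = r` and `|Re F^2| < L`, then
`π r² ≤ 4 L`. -/
theorem strip_sq_deriv {F : ℂ → ℂ} {L r : ℝ} (hL : 0 < L)
    (hF : DifferentiableOn ℂ F (ball 0 1)) (h0 : F 0 = 0)
    (hr : HasDerivAt F (r : ℂ) 0)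
    (hre : ∀ z ∈ ball (0 : ℂ) 1, |((F z) ^ 2).re| < L) :
    Real.pi * r ^ 2 ≤ 4 * L := by
  set k : ℝ := Real.pi / (2 * L) with hk
  have hkpos : 0 < k := by positivity
  have hG : DifferentiableOn ℂ (fun z => F z ^ 2) (ball 0 1) := hF.pow 2
  have hFO : F =O[𝓝 0] (fun z : ℂ => z) := by
    have := hr.hasFDerivAt.isBigO_sub
    simpa [h0] using this
  have hFt : Tendsto F (𝓝 0) (𝓝 0) := by
    have := hr.continuousAt
    simpa [ContinuousAt, h0] using this
  have ho : (fun z => F z ^ 2) =o[𝓝 0] (fun z : ℂ => z) := by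
    have h1 : F =o[𝓝 0] (fun _ : ℂ => (1 : ℂ)) := (Asymptotics.isLittleO_one_iff ℂ).mpr hFt
    have := h1.mul_isBigO hFO
    simpa [pow_two] using this
  have hmain : ∀ z ∈ ball (0 : ℂ) 1, ‖(exp (I * (k : ℝ) * (F z ^ 2)) - 1) /
      (exp (I * (k : ℝ) * (F z ^ 2)) + 1)‖ ≤ ‖z‖ ^ 2 := by
    intro z hz
    exact strip_schwarz hL hG (by simp [h0]) hre ho hz
  set ψ : ℂ → ℂ := fun w => (exp (I * (k : ℝ) * w) - 1) / (exp (I * (k : ℝ) * w) + 1) with hψ
  have hψd : HasDerivAt ψ (I * k / 2) 0 := by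
    have hd : HasDerivAt (fun w : ℂ => exp (I * (k : ℝ) * w)) (I * k) 0 := by
      have := ((hasDerivAt_id (0 : ℂ)).const_mul (I * (k : ℝ))).cexp
      simpa using this
    have h1 := (hd.sub_const 1).div (hd.add_const 1) (by simp)
    refine h1.congr_deriv ?_
    simp
    ring
  have hψ0 : ψ 0 = 0 := by simp [hψ]
  have hds : ContinuousAt (dslope ψ 0) 0 := continuousAt_dslope_same.mpr hψd.differentiableAt
  have hds0 : dslope ψ 0 0 = I * k / 2 := by
    rw [dslope_same, hψd.deriv]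
  have hsl : Tendsto (fun z => z⁻¹ * F z) (𝓝[≠] 0) (𝓝 (r : ℂ)) := by
    have := hasDerivAt_iff_tendsto_slope.mp hr
    refine this.congr (fun z => ?_)
    simp [slope_def_field, h0, div_eq_inv_mul]
  have hF2t : Tendsto (fun z => F z ^ 2) (𝓝[≠] 0) (𝓝 0) := by
    have : Tendsto (fun z => F z ^ 2) (𝓝 0) (𝓝 0) := by simpa using hFt.pow 2
    exact this.mono_left nhdsWithin_le_nhds
  have hlim : Tendsto (fun z => (z⁻¹ * F z) ^ 2 * dslope ψ 0 (F z ^ 2)) (𝓝[≠] 0)
      (𝓝 ((r : ℂ) ^ 2 * (I * k / 2))) := by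
    have h2 : Tendsto (fun z => dslope ψ 0 (F z ^ 2)) (𝓝[≠] 0) (𝓝 (I * k / 2)) := by
      have := hds.tendsto
      rw [hds0] at this
      exact this.comp hF2t
    exact (hsl.pow 2).mul h2
  have hbd : ∀ᶠ z in 𝓝[≠] (0 : ℂ), ‖(z⁻¹ * F z) ^ 2 * dslope ψ 0 (F z ^ 2)‖ ≤ 1 := by
    have h1 : ∀ᶠ z in 𝓝[≠] (0 : ℂ), z ∈ ball (0 : ℂ) 1 :=
      nhdsWithin_le_nhds (isOpen_ball.mem_nhds (mem_ball_self one_pos))
    filter_upwards [h1, self_mem_nhdsWithin] with z hz hz0
    have hz0' : z ≠ 0 := hz0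
    have h3 : (z⁻¹ * F z) ^ 2 * dslope ψ 0 (F z ^ 2) = (z ^ 2)⁻¹ * ψ (F z ^ 2) := by
      have : (F z ^ 2 - 0) • dslope ψ 0 (F z ^ 2) = ψ (F z ^ 2) - ψ 0 := sub_smul_dslope ψ 0 _
      rw [hψ0, sub_zero, sub_zero, smul_eq_mul] at this
      rw [← this]
      ring
    rw [h3, norm_mul, norm_inv, norm_pow]
    have h4 := hmain z hz
    have h5 : 0 < ‖z‖ ^ 2 := by positivity
    rw [inv_mul_le_iff₀ h5, mul_one]
    exact h4
  have h6 : ‖(r : ℂ) ^ 2 * (I * k / 2)‖ ≤ 1 := le_of_tendsto hlim.norm hbd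
  rw [norm_mul, norm_div, norm_mul, norm_pow] at h6
  simp only [norm_real, norm_I, one_mul, Real.norm_eq_abs, sq_abs, RCLike.norm_ofNat] at h6
  rw [abs_of_pos hkpos, hk] at h6
  have h7 : r ^ 2 * (Real.pi / (2 * L) / 2) = (Real.pi * r ^ 2) / (4 * L) := by
    field_simp
    ring
  rw [h7, div_le_one (by positivity)] at h6
  exact h6

end Pool.Agent.V1171
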