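import Mathlib
import Pool.Agent.V1171.SchwarzStrip

set_option autoImplicit false

open Complex Metric Set Filter Topology InnerProductSpace

namespace Pool.Agent.V1171.Conf

/-- The ambient space. -/
abbrev E3 := EuclideanSpace ℝ (Fin 3)

/-- The conditions on a conformal harmonic disc in `Ω`. -/
def CH (Ω : Set E3) (g : ℂ → E3) : Prop :=
  ContDiffOn ℝ 2 g (Metric.ball (0 : ℂ) 1) ∧
            (∀ z ∈ Metric.ball (0 : ℂ) 1, g z ∈ Ω) ∧
            (∀ z ∈ Metric.ball (0 : ℂ) 1,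
              ‖fderiv ℝ g z (1 : ℂ)‖ = ‖fderiv ℝ g z Complex.I‖ ∧
              inner ℝ (fderiv ℝ g z (1 : ℂ)) (fderiv ℝ g z Complex.I) = 0) ∧
            (∀ z ∈ Metric.ball (0 : ℂ) 1,
              fderiv ℝ (fun w => fderiv ℝ g w (1 : ℂ)) z (1 : ℂ) +
                fderiv ℝ (fun w => fderiv ℝ g w Complex.I) z Complex.I = 0)

/-- The domain. -/
def Om : Set E3 := {x | x 0 ^ 64 + x 1 ^ 64 + x 2 ^ 64 < 4}

theorem continuous_rho : Continuous (fun x : E3 => x 0 ^ 64 + x 1 ^ 64 + x 2 ^ 64 - 4) := by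
  fun_prop

theorem isOpen_Om : IsOpen Om := by
  have : Continuous (fun x : E3 => x 0 ^ 64 + x 1 ^ 64 + x 2 ^ 64) := by fun_prop
  exact isOpen_lt this continuous_const

theorem coord_bound {x : E3} (hx : x ∈ Om) (i : Fin 3) : x i ^ 64 < 4 := by
  have h0 : 0 ≤ x 0 ^ 64 := Even.pow_nonneg (by decide) _
  have h1 : 0 ≤ x 1 ^ 64 := Even.pow_nonneg (by decide) _
  have h2 : 0 ≤ x 2 ^ 64 := Even.pow_nonneg (by decide) _
  have h : x 0 ^ 64 + x 1 ^ 64 + x 2 ^ 64 < 4 := hx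
  fin_cases i <;> simp <;> linarith

theorem coord_abs {x : E3} (hx : x ∈ Om) (i : Fin 3) : |x i| ≤ 2 := by
  by_contra hcon
  push Not at hcon
  have h1 := coord_bound hx i
  have h2 : (2 : ℝ) ^ 64 ≤ |x i| ^ 64 := pow_le_pow_left₀ (by norm_num) hcon.le 64
  have h3 : |x i| ^ 64 = x i ^ 64 := by
    rw [show (64 : ℕ) = 2 * 32 from rfl, pow_mul, pow_mul, sq_abs]
  rw [h3] at h2
  norm_num at h2
  linarith

theorem coord_sq {x : E3} (hx : x ∈ Om) (i : Fin 3) : x i ^ 2 < 1046 / 1000 := by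
  by_contra hcon
  push Not at hcon
  have h1 := coord_bound hx i
  have h2 : (1046 / 1000 : ℝ) ^ 32 ≤ (x i ^ 2) ^ 32 := pow_le_pow_left₀ (by norm_num) hcon 32
  rw [← pow_mul] at h2
  norm_num at h2
  linarith

theorem isBounded_Om : Bornology.IsBounded Om := by
  rw [isBounded_iff_forall_norm_le]
  refine ⟨4, fun x hx => ?_⟩
  rw [EuclideanSpace.norm_eq, Fin.sum_univ_three]
  rw [Real.sqrt_le_left (by norm_num)]
  have h0 := coord_abs hx 0
  have h1 := coord_abs hx 1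
  have h2 := coord_abs hx 2
  simp only [Real.norm_eq_abs, sq_abs]
  have : ∀ t : ℝ, |t| ≤ 2 → t ^ 2 ≤ 4 := by
    intro t ht
    rw [← sq_abs]
    nlinarith [abs_nonneg t]
  nlinarith [this _ h0, this _ h1, this _ h2]

theorem convex_Om : Convex ℝ Om := by
  have hp : ConvexOn ℝ univ (fun t : ℝ => t ^ 64) := Even.convexOn_pow (by decide)
  have hc : ∀ i : Fin 3, ConvexOn ℝ univ (fun x : E3 => x i ^ 64) := by
    intro i
    have := hp.comp_linearMap (EuclideanSpace.proj i : E3 →L[ℝ] ℝ).toLinearMap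
    simpa [Function.comp_def] using this
  have h := ((hc 0).add (hc 1)).add (hc 2)
  have := h.convex_lt 4
  simpa [Om] using this

theorem smooth_Om : ∃ U : Set E3, ∃ ρ : E3 → ℝ,
        IsOpen U ∧ closure Om ⊆ U ∧ ContDiffOn ℝ ((⊤ : ℕ∞) : WithTop ℕ∞) ρ U ∧
        Om = {x | x ∈ U ∧ ρ x < 0} ∧ ∀ x ∈ frontier Om, fderiv ℝ ρ x ≠ 0 := by
  refine ⟨univ, fun x => x 0 ^ 64 + x 1 ^ 64 + x 2 ^ 64 - 4, isOpen_univ, subset_univ _, ?_, ?_, ?_⟩
  · apply ContDiff.contDiffOn
    have hc : ∀ i : Fin 3, ContDiff ℝ ((⊤ : ℕ∞) : WithTop ℕ∞) (fun x : E3 => x i ^ 64) := by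
      intro i
      exact ((EuclideanSpace.proj i : E3 →L[ℝ] ℝ).contDiff).pow 64
    exact (((hc 0).add (hc 1)).add (hc 2)).sub contDiff_const
  · ext x
    simp [Om, sub_neg]
  · intro x hx hzero
    have hx0 : x 0 ^ 64 + x 1 ^ 64 + x 2 ^ 64 = 4 := by
      have hc : Continuous (fun x : E3 => x 0 ^ 64 + x 1 ^ 64 + x 2 ^ 64) := by fun_prop
      have := frontier_lt_subset_eq hc continuous_const hx
      simpa using this
    have hd : HasFDerivAt (fun x : E3 => x 0 ^ 64 + x 1 ^ 64 + x 2 ^ 64 - 4)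
        (((64 : ℕ) • x 0 ^ 63) • (EuclideanSpace.proj 0 : E3 →L[ℝ] ℝ)
        + ((64 : ℕ) • x 1 ^ 63) • (EuclideanSpace.proj 1 : E3 →L[ℝ] ℝ)
        + ((64 : ℕ) • x 2 ^ 63) • (EuclideanSpace.proj 2 : E3 →L[ℝ] ℝ)) x := by
      have hc : ∀ i : Fin 3, HasFDerivAt (fun x : E3 => x i ^ 64)
          (((64 : ℕ) • x i ^ 63) • (EuclideanSpace.proj i : E3 →L[ℝ] ℝ)) x := by
        intro i
        have := ((EuclideanSpace.proj i : E3 →L[ℝ] ℝ).hasFDerivAt (x := x)).pow 64
        simpa using this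
      exact (((hc 0).add (hc 1)).add (hc 2)).sub_const 4
    rw [hd.fderiv] at hzero
    have := congrArg (fun l : E3 →L[ℝ] ℝ => l x) hzero
    simp at this
    nlinarith [this, hx0, pow_succ (x 0) 63, pow_succ (x 1) 63, pow_succ (x 2) 63]

/-- Coordinates of a disc in `CH` are harmonic. -/
theorem harmonic_coord {Ω : Set E3} {f : ℂ → E3} (hf : CH Ω f) (i : Fin 3) {z : ℂ}
    (hz : z ∈ ball (0 : ℂ) 1) : HarmonicAt (fun w => f w i) z := by
  obtain ⟨hc, -, -, hh⟩ := hf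
  have hcoord : ContDiffOn ℝ 2 (fun w => f w i) (ball 0 1) :=
    (EuclideanSpace.proj i : E3 →L[ℝ] ℝ).contDiff.comp_contDiffOn hc
  refine ⟨hcoord.contDiffAt (isOpen_ball.mem_nhds hz), ?_⟩
  filter_upwards [isOpen_ball.mem_nhds hz] with w hw
  rw [laplacian_eq_iteratedFDeriv_complexPlane]
  simp only [iteratedFDeriv_two_apply, Fin.isValue,
      Matrix.cons_val_zero, Matrix.cons_val_one, Matrix.cons_val_fin_one, Pi.zero_apply]
  have hcf : ContDiffAt ℝ 2 f w := hc.contDiffAt (isOpen_ball.mem_nhds hw)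
  have hdf : ContDiffAt ℝ 1 (fderiv ℝ f) w := hcf.fderiv_right (by norm_num)
  have hddf : DifferentiableAt ℝ (fderiv ℝ f) w := hdf.differentiableAt (by norm_num)
  have h1 : fderiv ℝ (fun w => f w i) =ᶠ[𝓝 w]
      fun y => (EuclideanSpace.proj i : E3 →L[ℝ] ℝ).comp (fderiv ℝ f y) := by
    filter_upwards [isOpen_ball.mem_nhds hw] with y hy
    have hd : DifferentiableAt ℝ f y := (hc.contDiffAt (isOpen_ball.mem_nhds hy)).differentiableAt
      (by norm_num)
    exact ((EuclideanSpace.proj i : E3 →L[ℝ] ℝ).hasFDerivAt.comp y hd.hasFDerivAt).fderiv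
  rw [h1.fderiv_eq]
  have key : ∀ v : ℂ, (fderiv ℝ (fun y => (EuclideanSpace.proj i : E3 →L[ℝ] ℝ).comp (fderiv ℝ f y)) w v) v
      = (fderiv ℝ (fun y => fderiv ℝ f y v) w v) i := by
    intro v
    have e1 : fderiv ℝ (fun y => (EuclideanSpace.proj i : E3 →L[ℝ] ℝ).comp (fderiv ℝ f y)) w
        = (ContinuousLinearMap.compL ℝ ℂ E3 ℝ (EuclideanSpace.proj i)).comp
          (fderiv ℝ (fderiv ℝ f) w) :=
      (((ContinuousLinearMap.compL ℝ ℂ E3 ℝ (EuclideanSpace.proj i)).hasFDerivAt).comp w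
        hddf.hasFDerivAt).fderiv
    have e2 : fderiv ℝ (fun y => fderiv ℝ f y v) w
        = (ContinuousLinearMap.apply ℝ E3 v).comp (fderiv ℝ (fderiv ℝ f) w) :=
      (((ContinuousLinearMap.apply ℝ E3 v).hasFDerivAt).comp w hddf.hasFDerivAt).fderiv
    rw [e1, e2]
    simp
  rw [key 1, key I]
  have := congrArg (fun x : E3 => x i) (hh w hw)
  simpa using this

theorem upper_bound {f : ℂ → E3} (hf : CH Om f) {r : ℝ} (hr : 0 < r) (h0 : f 0 = 0)
    (h1 : fderiv ℝ f 0 (1 : ℂ) = r • EuclideanSpace.single 0 1)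
    (hI : fderiv ℝ f 0 Complex.I = r • EuclideanSpace.single 1 1)
    (h3 : ∀ z ∈ ball (0 : ℂ) 1, f z 2 = 0) : Real.pi * r ^ 2 ≤ 4 * (1046 / 1000) := by
  have hcf : ∀ z ∈ ball (0 : ℂ) 1, ContDiffAt ℝ 2 f z := fun z hz =>
    hf.1.contDiffAt (isOpen_ball.mem_nhds hz)
  have hdf : ∀ z ∈ ball (0 : ℂ) 1, DifferentiableAt ℝ f z := fun z hz =>
    (hcf z hz).differentiableAt (by norm_num)
  have hcoord : ∀ z ∈ ball (0 : ℂ) 1, ∀ i : Fin 3, ∀ v : ℂ,
      fderiv ℝ (fun w => f w i) z v = (fderiv ℝ f z v) i := by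
    intro z hz i v
    have := ((EuclideanSpace.proj i : E3 →L[ℝ] ℝ).hasFDerivAt.comp z (hdf z hz).hasFDerivAt).fderiv
    have e : fderiv ℝ (fun w => f w i) z = (EuclideanSpace.proj i : E3 →L[ℝ] ℝ).comp (fderiv ℝ f z) :=
      this
    rw [e]
    simp
  -- the holomorphic functions
  set φ : Fin 3 → ℂ → ℂ := fun i z => fderiv ℝ (fun w => f w i) z 1 - I * fderiv ℝ (fun w => f w i) z I
    with hφ
  have hφd : ∀ i, DifferentiableOn ℂ (φ i) (ball 0 1) := fun i z hz =>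
    (_root_.HarmonicAt.differentiableAt_complex_partial (harmonic_coord hf i hz)).differentiableWithinAt
  have hd2 : ∀ z ∈ ball (0 : ℂ) 1, ∀ v : ℂ, (fderiv ℝ f z v) 2 = 0 := by
    intro z hz v
    rw [← hcoord z hz 2 v]
    have : (fun w => f w 2) =ᶠ[𝓝 z] fun _ => 0 := by
      filter_upwards [isOpen_ball.mem_nhds hz] with w hw using h3 w hw
    rw [this.fderiv_eq]
    simp
  have hconf : ∀ z ∈ ball (0 : ℂ) 1, (φ 0 z + I * φ 1 z) * (φ 0 z - I * φ 1 z) = 0 := by
    intro z hz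
    obtain ⟨hn, hi⟩ := hf.2.2.1 z hz
    have hn2 : ‖fderiv ℝ f z (1 : ℂ)‖ ^ 2 = ‖fderiv ℝ f z Complex.I‖ ^ 2 := by rw [hn]
    rw [EuclideanSpace.norm_sq_eq, EuclideanSpace.norm_sq_eq, Fin.sum_univ_three,
      Fin.sum_univ_three] at hn2
    simp only [Real.norm_eq_abs, sq_abs] at hn2
    rw [hd2 z hz, hd2 z hz] at hn2
    rw [PiLp.inner_apply, Fin.sum_univ_three] at hi
    simp only [RCLike.inner_apply, conj_trivial] at hi
    rw [hd2 z hz, hd2 z hz] at hi
    simp only [hφ]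
    rw [hcoord z hz, hcoord z hz, hcoord z hz, hcoord z hz]
    apply Complex.ext
    · simp
      linarith
    · simp
      linarith
  have hprod : ∀ z ∈ ball (0 : ℂ) 1, φ 0 z - I * φ 1 z = 0 := by
    have ha0 : φ 0 0 + I * φ 1 0 ≠ 0 := by
      have hz : (0 : ℂ) ∈ ball (0 : ℂ) 1 := mem_ball_self one_pos
      simp only [hφ]
      rw [hcoord 0 hz, hcoord 0 hz, hcoord 0 hz, hcoord 0 hz, h1, hI]
      simp
      intro h
      have := congrArg Complex.re h
      simp at this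
      linarith
    have han1 : AnalyticOnNhd ℂ (fun z => φ 0 z + I * φ 1 z) (ball 0 1) :=
      ((hφd 0).add ((hφd 1).const_mul I)).analyticOnNhd isOpen_ball
    have han2 : AnalyticOnNhd ℂ (fun z => φ 0 z - I * φ 1 z) (ball 0 1) :=
      ((hφd 0).sub ((hφd 1).const_mul I)).analyticOnNhd isOpen_ball
    have hz : (0 : ℂ) ∈ ball (0 : ℂ) 1 := mem_ball_self one_pos
    have hev : (fun z => φ 0 z - I * φ 1 z) =ᶠ[𝓝 0] 0 := by
      have hne : ∀ᶠ z in 𝓝 (0 : ℂ), φ 0 z + I * φ 1 z ≠ 0 :=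
        (han1 0 hz).continuousAt.eventually_ne ha0
      filter_upwards [hne, isOpen_ball.mem_nhds hz] with w hw hwb
      exact (mul_eq_zero.mp (hconf w hwb)).resolve_left hw
    have := han2.eqOn_zero_of_preconnected_of_eventuallyEq_zero
      (convex_ball (0 : ℂ) 1).isPreconnected hz hev
    exact this
  -- the holomorphic map
  set F : ℂ → ℂ := fun z => (f z 0 : ℂ) + I * (f z 1 : ℂ) with hF
  set Lc : E3 →L[ℝ] ℂ := (ofRealCLM.comp (EuclideanSpace.proj 0 : E3 →L[ℝ] ℝ)) +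
    (I : ℂ) • (ofRealCLM.comp (EuclideanSpace.proj 1 : E3 →L[ℝ] ℝ)) with hLc
  have hFL : F = fun z => Lc (f z) := by
    ext z; simp [hF, hLc]
  have hFd : ∀ z ∈ ball (0 : ℂ) 1, HasFDerivAt F (Lc.comp (fderiv ℝ f z)) z := by
    intro z hz
    rw [hFL]
    exact Lc.hasFDerivAt.comp z (hdf z hz).hasFDerivAt
  have hFD : ∀ z ∈ ball (0 : ℂ) 1, DifferentiableAt ℂ F z := by
    intro z hz
    refine differentiableAt_complex_iff_differentiableAt_real.2 ⟨(hFd z hz).differentiableAt, ?_⟩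
    rw [(hFd z hz).fderiv]
    have h := hprod z hz
    simp only [hφ] at h
    rw [hcoord z hz, hcoord z hz, hcoord z hz, hcoord z hz] at h
    have hre := congrArg Complex.re h
    have him := congrArg Complex.im h
    simp at hre him
    simp only [hLc, ContinuousLinearMap.comp_apply, add_apply,
      smul_apply, ofRealCLM_apply, smul_eq_mul, PiLp.proj_apply]
    apply Complex.ext
    · simp
      linarith
    · simp
      linarith
  have hFdiff : DifferentiableOn ℂ F (ball 0 1) := fun z hz => (hFD z hz).differentiableWithinAt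
  have hF0 : F 0 = 0 := by simp [hF, h0]
  have hFderiv : HasDerivAt F (r : ℂ) 0 := by
    have hz : (0 : ℂ) ∈ ball (0 : ℂ) 1 := mem_ball_self one_pos
    have h := (hFD 0 hz).hasDerivAt
    have e : deriv F 0 = r := by
      have h4 := (h.hasFDerivAt.restrictScalars ℝ).unique (hFd 0 hz)
      have h5 := congrArg (fun l : ℂ →L[ℝ] ℂ => l 1) h4
      simp only [ContinuousLinearMap.comp_apply, h1] at h5
      simp [hLc] at h5
      exact h5
    rw [e] at h
    exact h
  refine strip_sq_deriv (by norm_num) hFdiff hF0 hFderiv ?_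
  intro z hz
  have hm := hf.2.1 z hz
  have c0 := coord_sq hm 0
  have c1 := coord_sq hm 1
  have n0 := sq_nonneg (f z 0)
  have n1 := sq_nonneg (f z 1)
  have : ((F z) ^ 2).re = f z 0 ^ 2 - f z 1 ^ 2 := by
    simp [hF, pow_two]
  rw [this, abs_lt]
  constructor <;> linarith

/-! The competitor. -/

/-- Planar coefficient. -/
noncomputable def ca : ℝ := 2 / √3
/-- Vertical coefficient. -/
noncomputable def cb : ℝ := √(2 / 3)

theorem ca_sq : ca ^ 2 = 4 / 3 := by
  rw [ca, div_pow, Real.sq_sqrt (by norm_num)]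
  norm_num

theorem cb_sq : cb ^ 2 = 2 / 3 := by
  rw [cb, Real.sq_sqrt (by norm_num)]

theorem ca_pos : 0 < ca := by unfold ca; positivity
theorem cb_pos : 0 < cb := by unfold cb; positivity

/-- Build a vector from coordinates. -/
def vec (a b c : ℝ) : E3 := WithLp.toLp 2 ![a, b, c]

theorem hasFDerivAt_vec {p q s : ℂ → ℝ} {p' q' s' : ℂ →L[ℝ] ℝ} {z : ℂ}
    (hp : HasFDerivAt p p' z) (hq : HasFDerivAt q q' z) (hs : HasFDerivAt s s' z) (v : ℂ) :
    fderiv ℝ (fun w => vec (p w) (q w) (s w)) z v = vec (p' v) (q' v) (s' v) ∧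
    DifferentiableAt ℝ (fun w => vec (p w) (q w) (s w)) z := by
  have hd : DifferentiableAt ℝ (fun w => vec (p w) (q w) (s w)) z := by
    rw [differentiableAt_euclidean]
    intro i
    fin_cases i
    · exact hp.differentiableAt
    · exact hq.differentiableAt
    · exact hs.differentiableAt
  refine ⟨?_, hd⟩
  have hcoord : ∀ i : Fin 3, (fderiv ℝ (fun w => vec (p w) (q w) (s w)) z v) i =
      fderiv ℝ (fun w => vec (p w) (q w) (s w) i) z v := by
    intro i
    have := ((EuclideanSpace.proj i : E3 →L[ℝ] ℝ).hasFDerivAt.comp z hd.hasFDerivAt).fderiv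
    have e : fderiv ℝ (fun w => vec (p w) (q w) (s w) i) z = (EuclideanSpace.proj i : E3 →L[ℝ] ℝ).comp
      (fderiv ℝ (fun w => vec (p w) (q w) (s w)) z) :=
      this
    rw [e]
    simp
  ext i
  rw [hcoord i]
  fin_cases i
  · exact congrArg (fun l : ℂ →L[ℝ] ℝ => l v) hp.fderiv
  · exact congrArg (fun l : ℂ →L[ℝ] ℝ => l v) hq.fderiv
  · exact congrArg (fun l : ℂ →L[ℝ] ℝ => l v) hs.fderiv

/-- The competitor disc. -/
noncomputable def gg (z : ℂ) : E3 :=
  vec (ca * (z.re - (z.re ^ 3 - 3 * z.re * z.im ^ 2) / 6))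
    (ca * (z.im + (3 * z.re ^ 2 * z.im - z.im ^ 3) / 6))
    (-cb * (z.re ^ 2 - z.im ^ 2))

theorem hre (z : ℂ) : HasFDerivAt (fun w : ℂ => w.re) reCLM z := reCLM.hasFDerivAt
theorem him (z : ℂ) : HasFDerivAt (fun w : ℂ => w.im) imCLM z := imCLM.hasFDerivAt

theorem gg_d (z v : ℂ) : fderiv ℝ gg z v =
    vec (ca * (1 - (z.re ^ 2 - z.im ^ 2) / 2) * v.re + ca * z.re * z.im * v.im)
      (ca * z.re * z.im * v.re + ca * (1 + (z.re ^ 2 - z.im ^ 2) / 2) * v.im)
      (-cb * (2 * z.re) * v.re + cb * (2 * z.im) * v.im) := by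
  have h1 : HasFDerivAt (fun z : ℂ => ca * (z.re - (z.re ^ 3 - 3 * z.re * z.im ^ 2) / 6))
      ((ca * (1 - (z.re ^ 2 - z.im ^ 2) / 2)) • reCLM + (ca * z.re * z.im) • imCLM) z := by
    have := ((hre z).sub ((((hre z).pow 3).sub
      (((hre z).const_mul 3).mul ((him z).pow 2))).mul_const (1 / 6))).const_mul ca
    refine (this.congr_fderiv ?_).congr_of_eventuallyEq ?_
    · ext w
      simp
      ring
    · filter_upwards with w
      simp only [Pi.sub_apply, Pi.mul_apply, Pi.add_apply]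
      ring
  have h2 : HasFDerivAt (fun z : ℂ => ca * (z.im + (3 * z.re ^ 2 * z.im - z.im ^ 3) / 6))
      ((ca * z.re * z.im) • reCLM + (ca * (1 + (z.re ^ 2 - z.im ^ 2) / 2)) • imCLM) z := by
    have := ((him z).add (((((hre z).pow 2).const_mul 3).mul (him z)).sub
      ((him z).pow 3) |>.mul_const (1 / 6))).const_mul ca
    refine (this.congr_fderiv ?_).congr_of_eventuallyEq ?_
    · ext w
      simp
      ring
    · filter_upwards with w
      simp only [Pi.sub_apply, Pi.mul_apply, Pi.add_apply]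
      ring
  have h3 : HasFDerivAt (fun z : ℂ => -cb * (z.re ^ 2 - z.im ^ 2))
      ((-cb * (2 * z.re)) • reCLM + (cb * (2 * z.im)) • imCLM) z := by
    have := (((hre z).pow 2).sub ((him z).pow 2)).const_mul (-cb)
    refine (this.congr_fderiv ?_).congr_of_eventuallyEq ?_
    · ext w
      simp
      ring
    · filter_upwards with w
      simp
  have := (hasFDerivAt_vec h1 h2 h3 v).1
  unfold gg
  rw [this]
  simp

theorem gg_contDiff : ContDiff ℝ 2 gg := by
  have hr : ContDiff ℝ 2 (fun w : ℂ => w.re) := reCLM.contDiff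
  have hi : ContDiff ℝ 2 (fun w : ℂ => w.im) := imCLM.contDiff
  rw [contDiff_euclidean]
  intro i
  fin_cases i
  · simp only [gg, vec]
    simp
    fun_prop
  · simp only [gg, vec]
    simp
    fun_prop
  · simp only [gg, vec]
    simp
    fun_prop

theorem vec_inner (a b c a' b' c' : ℝ) :
    inner ℝ (vec a b c) (vec a' b' c') = a * a' + b * b' + c * c' := by
  rw [PiLp.inner_apply, Fin.sum_univ_three]
  simp [vec]
  ring

theorem vec_norm_sq (a b c : ℝ) : ‖vec a b c‖ ^ 2 = a ^ 2 + b ^ 2 + c ^ 2 := by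
  rw [EuclideanSpace.norm_sq_eq, Fin.sum_univ_three]
  simp [vec]

theorem planar_bound {x y : ℝ} (h : x ^ 2 + y ^ 2 ≤ 1) :
    (ca * (x - (x ^ 3 - 3 * x * y ^ 2) / 6)) ^ 2 ≤ 1 := by
  have key : (x - (x ^ 3 - 3 * x * y ^ 2) / 6) ^ 2 ≤ 3 / 4 := by
    have e : x - (x ^ 3 - 3 * x * y ^ 2) / 6 = x * (1 - x ^ 2 / 6 + y ^ 2 / 2) := by ring
    rw [e, mul_pow]
    have hx : x ^ 2 ≤ 1 := by nlinarith [sq_nonneg y]
    have h1 : 0 ≤ 1 - x ^ 2 / 6 + y ^ 2 / 2 := by nlinarith [sq_nonneg y]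
    have h2 : 1 - x ^ 2 / 6 + y ^ 2 / 2 ≤ 3 / 2 - 2 / 3 * x ^ 2 := by nlinarith
    have h3 : (1 - x ^ 2 / 6 + y ^ 2 / 2) ^ 2 ≤ (3 / 2 - 2 / 3 * x ^ 2) ^ 2 :=
      pow_le_pow_left₀ h1 h2 2
    have h4 : x ^ 2 * (1 - x ^ 2 / 6 + y ^ 2 / 2) ^ 2 ≤ x ^ 2 * (3 / 2 - 2 / 3 * x ^ 2) ^ 2 :=
      mul_le_mul_of_nonneg_left h3 (sq_nonneg x)
    refine h4.trans ?_
    have h5 : 3 / 4 - x ^ 2 * (3 / 2 - 2 / 3 * x ^ 2) ^ 2
        = (x ^ 2 - 3 / 4) ^ 2 * (4 / 3 - 4 / 9 * x ^ 2) := by ring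
    have h6 : 0 ≤ (x ^ 2 - 3 / 4) ^ 2 * (4 / 3 - 4 / 9 * x ^ 2) := by
      apply mul_nonneg (sq_nonneg _)
      linarith
    linarith
  rw [mul_pow, ca_sq]
  linarith

theorem pow64_le {t : ℝ} (h : t ^ 2 ≤ 1) : t ^ 64 ≤ 1 := by
  rw [show (64 : ℕ) = 2 * 32 from rfl, pow_mul]
  exact pow_le_one₀ (sq_nonneg t) h

theorem gg_CH : CH Om gg := by
  refine ⟨gg_contDiff.contDiffOn, ?_, ?_, ?_⟩
  · intro z hz
    have hn : z.re ^ 2 + z.im ^ 2 ≤ 1 := by
      rw [mem_ball_zero_iff] at hz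
      have : ‖z‖ ^ 2 ≤ 1 := by nlinarith [norm_nonneg z]
      rw [← normSq_eq_norm_sq, normSq_apply] at this
      nlinarith
    have h0 : (gg z 0) ^ 64 ≤ 1 := pow64_le (planar_bound hn)
    have h1 : (gg z 1) ^ 64 ≤ 1 := by
      apply pow64_le
      have := planar_bound (x := z.im) (y := z.re) (by linarith)
      have e : gg z 1 = ca * (z.im - (z.im ^ 3 - 3 * z.im * z.re ^ 2) / 6) := by
        simp only [gg, vec]
        simp
        left
        ring
      rw [e]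
      exact this
    have h2 : (gg z 2) ^ 64 ≤ 1 := by
      apply pow64_le
      have e : gg z 2 = -cb * (z.re ^ 2 - z.im ^ 2) := by
        simp [gg, vec]
      rw [e, mul_pow, neg_sq, cb_sq]
      nlinarith [sq_nonneg z.re, sq_nonneg z.im, sq_nonneg (z.re * z.im)]
    show gg z 0 ^ 64 + gg z 1 ^ 64 + gg z 2 ^ 64 < 4
    linarith
  · intro z hz
    rw [gg_d, gg_d]
    constructor
    · rw [← sq_eq_sq₀ (norm_nonneg _) (norm_nonneg _), vec_norm_sq, vec_norm_sq]
      simp only [one_re, one_im, I_re, I_im, mul_one, mul_zero, add_zero, zero_add]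
      have e1 := ca_sq
      have e2 := cb_sq
      have : (ca * (1 - (z.re ^ 2 - z.im ^ 2) / 2)) ^ 2 + (ca * z.re * z.im) ^ 2 +
          (-cb * (2 * z.re)) ^ 2 = ca ^ 2 * (1 - (z.re ^ 2 - z.im ^ 2) / 2) ^ 2
          + ca ^ 2 * (z.re * z.im) ^ 2 + cb ^ 2 * (4 * z.re ^ 2) := by ring
      rw [this]
      have : (ca * z.re * z.im) ^ 2 + (ca * (1 + (z.re ^ 2 - z.im ^ 2) / 2)) ^ 2 +
          (cb * (2 * z.im)) ^ 2 = ca ^ 2 * (1 + (z.re ^ 2 - z.im ^ 2) / 2) ^ 2
          + ca ^ 2 * (z.re * z.im) ^ 2 + cb ^ 2 * (4 * z.im ^ 2) := by ring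
      rw [this, e1, e2]
      ring
    · rw [vec_inner]
      simp only [one_re, one_im, I_re, I_im, mul_one, mul_zero, add_zero, zero_add]
      have e1 := ca_sq
      have e2 := cb_sq
      have : ca * (1 - (z.re ^ 2 - z.im ^ 2) / 2) * (ca * z.re * z.im) +
          ca * z.re * z.im * (ca * (1 + (z.re ^ 2 - z.im ^ 2) / 2)) +
          -cb * (2 * z.re) * (cb * (2 * z.im)) = ca ^ 2 * (2 * (z.re * z.im)) -
          cb ^ 2 * (4 * (z.re * z.im)) := by ring
      rw [this, e1, e2]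
      ring
  · intro z hz
    have e1 : (fun w => fderiv ℝ gg w (1 : ℂ)) = fun w =>
        vec (ca * (1 - (w.re ^ 2 - w.im ^ 2) / 2)) (ca * w.re * w.im) (-cb * (2 * w.re)) := by
      ext1 w
      rw [gg_d]
      simp
    have e2 : (fun w => fderiv ℝ gg w Complex.I) = fun w =>
        vec (ca * w.re * w.im) (ca * (1 + (w.re ^ 2 - w.im ^ 2) / 2)) (cb * (2 * w.im)) := by
      ext1 w
      rw [gg_d]
      simp
    rw [e1, e2]
    have q1 : HasFDerivAt (fun w : ℂ => ca * (1 - (w.re ^ 2 - w.im ^ 2) / 2))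
        ((-ca * z.re) • reCLM + (ca * z.im) • imCLM) z := by
      have := ((((hre z).pow 2).sub ((him z).pow 2)).mul_const (1 / 2)).const_sub 1 |>.const_mul ca
      refine (this.congr_fderiv ?_).congr_of_eventuallyEq ?_
      · ext w
        simp
        ring
      · filter_upwards with w
        simp only [Pi.sub_apply, Pi.mul_apply, Pi.add_apply]
        ring
    have q2 : HasFDerivAt (fun w : ℂ => ca * w.re * w.im)
        ((ca * z.im) • reCLM + (ca * z.re) • imCLM) z := by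
      have := (((hre z).const_mul ca).mul (him z))
      refine (this.congr_fderiv ?_)
      ext w
      simp
      ring
    have q3 : HasFDerivAt (fun w : ℂ => -cb * (2 * w.re)) ((-cb * 2) • reCLM) z := by
      have := ((hre z).const_mul 2).const_mul (-cb)
      refine (this.congr_fderiv ?_)
      ext w
      simp
      ring
    have q4 : HasFDerivAt (fun w : ℂ => ca * (1 + (w.re ^ 2 - w.im ^ 2) / 2))
        ((ca * z.re) • reCLM + (-ca * z.im) • imCLM) z := by
      have := ((((hre z).pow 2).sub ((him z).pow 2)).mul_const (1 / 2)).const_add 1 |>.const_mul ca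
      refine (this.congr_fderiv ?_).congr_of_eventuallyEq ?_
      · ext w
        simp
        ring
      · filter_upwards with w
        simp only [Pi.sub_apply, Pi.mul_apply, Pi.add_apply]
        ring
    have q5 : HasFDerivAt (fun w : ℂ => cb * (2 * w.im)) ((cb * 2) • imCLM) z := by
      have := ((him z).const_mul 2).const_mul cb
      refine (this.congr_fderiv ?_)
      ext w
      simp
      ring
    rw [(hasFDerivAt_vec q1 q2 q3 1).1, (hasFDerivAt_vec q2 q4 q5 I).1]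
    ext i
    fin_cases i
    · simp [vec]
    · simp [vec]
    · simp [vec]

theorem gg_0 : gg 0 = 0 := by
  ext i
  fin_cases i <;> simp [gg, vec]

theorem gg_1 : fderiv ℝ gg 0 1 = ca • EuclideanSpace.single 0 1 := by
  rw [gg_d]
  ext i
  fin_cases i <;> simp [vec]

theorem gg_I : fderiv ℝ gg 0 I = ca • EuclideanSpace.single 1 1 := by
  rw [gg_d]
  ext i
  fin_cases i <;> simp [vec]

/-- Reflection in the third coordinate. -/
noncomputable def sg : E3 ≃ₗᵢ[ℝ] E3 :=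
  LinearIsometryEquiv.piLpCongrRight 2
    (fun i : Fin 3 => if i = 2 then LinearIsometryEquiv.neg ℝ else LinearIsometryEquiv.refl ℝ ℝ)

theorem sg_0 (x : E3) : sg x 0 = x 0 := by
  simp [sg]

theorem sg_1 (x : E3) : sg x 1 = x 1 := by
  simp [sg]

theorem sg_2 (x : E3) : sg x 2 = - x 2 := by
  simp [sg]

theorem sg_CH {f : ℂ → E3} (hf : CH Om f) : CH Om (fun z => sg (f z)) := by
  have hfd : ∀ (g : ℂ → E3) (z v : ℂ), fderiv ℝ (fun z => sg (g z)) z v = sg (fderiv ℝ g z v) := by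
    intro g z v
    have := sg.toContinuousLinearEquiv.comp_fderiv (f := g) (x := z)
    have h2 := congrArg (fun l : ℂ →L[ℝ] E3 => l v) this
    simpa [Function.comp_def] using h2
  refine ⟨?_, ?_, ?_, ?_⟩
  · exact sg.toContinuousLinearEquiv.contDiff.comp_contDiffOn hf.1
  · intro z hz
    have := hf.2.1 z hz
    show sg (f z) 0 ^ 64 + sg (f z) 1 ^ 64 + sg (f z) 2 ^ 64 < 4
    rw [sg_0, sg_1, sg_2, Even.neg_pow (by decide)]
    exact this
  · intro z hz
    rw [hfd, hfd, sg.norm_map, sg.norm_map, sg.inner_map_map]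
    exact hf.2.2.1 z hz
  · intro z hz
    simp_rw [hfd]
    rw [← map_add, hf.2.2.2 z hz, map_zero]

end Pool.Agent.V1171.Conf
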